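import Mathlib

/-! Generic weak limit toolkit (Prokhorov along an ultrafilter). -/

open MeasureTheory Filter Topology Set BoundedContinuousFunction
open scoped ENNReal NNReal

namespace Pool.Agent.H49WL

section Gen

variable {Ω Ω' : Type*} [TopologicalSpace Ω] [MeasurableSpace Ω] [TopologicalSpace Ω']
  [MeasurableSpace Ω']

/-- weak convergence of `m n` to `Q` along the ultrafilter `U` -/
def Lim (m : ℕ → Measure Ω) (U : Ultrafilter ℕ) (Q : Measure Ω) : Prop :=
  ∀ f : Ω →ᵇ ℝ≥0, Tendsto (fun n => ∫⁻ x, f x ∂(m n)) U (𝓝 (∫⁻ x, f x ∂Q))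

/-- Prokhorov: a tight sequence of probability measures has a limit along some ultrafilter. -/
theorem exists_lim [T2Space Ω] [BorelSpace Ω] (m : ℕ → Measure Ω)
    (hp : ∀ n, IsProbabilityMeasure (m n)) (ht : IsTightMeasureSet (range m)) :
    ∃ Q : Measure Ω, IsProbabilityMeasure Q ∧ ∃ U : Ultrafilter ℕ, (U : Filter ℕ) ≤ atTop ∧
      Lim m U Q := by
  classical
  let M : ℕ → ProbabilityMeasure Ω := fun n => ⟨m n, hp n⟩
  have hc : IsCompact (closure (range M)) := by
    apply isCompact_closure_of_isTightMeasureSet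
    refine ht.subset ?_
    rintro _ ⟨_, ⟨n, rfl⟩, rfl⟩
    exact ⟨n, rfl⟩
  let U : Ultrafilter ℕ := Ultrafilter.of atTop
  have hU : (U : Filter ℕ) ≤ atTop := Ultrafilter.of_le atTop
  obtain ⟨Q, -, hQ⟩ := hc.ultrafilter_le_nhds (U.map M) (by
    rw [Filter.le_principal_iff]
    refine Filter.mem_map.2 (Filter.univ_mem' fun n => subset_closure ⟨n, rfl⟩))
  refine ⟨Q, inferInstance, U, hU, fun f => ?_⟩
  have h1 : Tendsto M U (𝓝 Q) := hQ
  have h2 := (ProbabilityMeasure.tendsto_iff_forall_lintegral_tendsto.1 h1) f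
  exact h2

variable [OpensMeasurableSpace Ω]

/-- mass of closed sets: lower bounds pass to the limit -/
theorem Lim.le_closed [HasOuterApproxClosed Ω] {m : ℕ → Measure Ω} {U : Ultrafilter ℕ}
    {Q : Measure Ω} [IsFiniteMeasure Q] (h : Lim m U Q) {F : Set Ω} (hF : IsClosed F) {c : ℝ≥0∞}
    (hc : ∀ᶠ n in (U : Filter ℕ), c ≤ m n F) : c ≤ Q F := by
  have h1 : ∀ k, c ≤ ∫⁻ x, (hF.apprSeq k x : ℝ≥0∞) ∂Q := by
    intro k
    refine ge_of_tendsto (h (hF.apprSeq k)) ?_
    filter_upwards [hc] with n hn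
    exact hn.trans (HasOuterApproxClosed.measure_le_lintegral hF (m n) k)
  exact ge_of_tendsto' (HasOuterApproxClosed.tendsto_lintegral_apprSeq hF Q) h1

omit [OpensMeasurableSpace Ω] in
theorem Lim.univ_eq {m : ℕ → Measure Ω} {U : Ultrafilter ℕ}
    {Q : Measure Ω} (h : Lim m U Q) : Tendsto (fun n => m n univ) U (𝓝 (Q univ)) := by
  have := h 1
  simpa using this

/-- mass of open sets: upper bounds pass to the limit -/
theorem Lim.open_le [HasOuterApproxClosed Ω] {m : ℕ → Measure Ω} {U : Ultrafilter ℕ}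
    {Q : Measure Ω} [IsProbabilityMeasure Q] (hm : ∀ n, IsProbabilityMeasure (m n))
    (h : Lim m U Q) {G : Set Ω} (hG : IsOpen G) {c : ℝ≥0∞}
    (hc : ∀ᶠ n in (U : Filter ℕ), m n G ≤ c) : Q G ≤ c := by
  have h1 : 1 - c ≤ Q Gᶜ := by
    apply h.le_closed hG.isClosed_compl
    filter_upwards [hc] with n hn
    have := hm n
    rw [prob_compl_eq_one_sub hG.measurableSet]
    gcongr
  rw [prob_compl_eq_one_sub hG.measurableSet] at h1
  have h2 : Q G ≤ 1 := prob_le_one
  rcases le_or_gt 1 c with h3 | h3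
  · exact h2.trans h3
  · have h4 : 1 - (1 - Q G) ≤ 1 - (1 - c) := by gcongr
    rwa [ENNReal.sub_sub_cancel ENNReal.one_ne_top h2,
      ENNReal.sub_sub_cancel ENNReal.one_ne_top h3.le] at h4

/-- closed relation with probability tending to one -/
theorem Lim.ae_closed [HasOuterApproxClosed Ω] {m : ℕ → Measure Ω} {U : Ultrafilter ℕ}
    {Q : Measure Ω} [IsProbabilityMeasure Q] (hm : ∀ n, IsProbabilityMeasure (m n))
    (h : Lim m U Q) {F : Set Ω} (hF : IsClosed F)
    (hc : Tendsto (fun n => m n Fᶜ) U (𝓝 0)) : ∀ᵐ x ∂Q, x ∈ F := by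
  have h1 : Q Fᶜ ≤ 0 := by
    refine le_of_forall_gt fun c hcpos => ?_
    obtain ⟨d, hd1, hd2⟩ := exists_between hcpos
    refine lt_of_le_of_lt ?_ hd2
    apply h.open_le hm hF.isOpen_compl
    filter_upwards [(hc.eventually_lt_const hd1)] with n hn
    exact hn.le
  exact le_antisymm h1 bot_le

/-- closed relation which holds almost surely in finite volume -/
theorem Lim.ae_closed' [HasOuterApproxClosed Ω] {m : ℕ → Measure Ω} {U : Ultrafilter ℕ}
    {Q : Measure Ω} [IsProbabilityMeasure Q] (hm : ∀ n, IsProbabilityMeasure (m n))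
    (h : Lim m U Q) {F : Set Ω} (hF : IsClosed F)
    (hc : ∀ᶠ n in (U : Filter ℕ), ∀ᵐ x ∂(m n), x ∈ F) : ∀ᵐ x ∂Q, x ∈ F := by
  apply h.ae_closed hm hF
  refine (tendsto_congr' ?_).2 tendsto_const_nhds
  filter_upwards [hc] with n hn
  exact hn

omit [OpensMeasurableSpace Ω] in
/-- continuous images -/
theorem Lim.map [OpensMeasurableSpace Ω'] {m : ℕ → Measure Ω} {U : Ultrafilter ℕ}
    {Q : Measure Ω} (h : Lim m U Q) {f : Ω → Ω'} (hf : Continuous f) (hfm : Measurable f) :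
    Lim (fun n => (m n).map f) U (Q.map f) := by
  intro φ
  have e : ∀ ν : Measure Ω, ∫⁻ x, (φ x : ℝ≥0∞) ∂(ν.map f) =
      ∫⁻ x, ((φ.compContinuous ⟨f, hf⟩) x : ℝ≥0∞) ∂ν := by
    intro ν
    rw [lintegral_map]
    · rfl
    · exact φ.measurable_coe_ennreal_comp
    · exact hfm
  simp only [e]
  exact h _

omit [OpensMeasurableSpace Ω] in
/-- the limit is unique -/
theorem Lim.unique [HasOuterApproxClosed Ω] [BorelSpace Ω] {m : ℕ → Measure Ω} {U : Ultrafilter ℕ}
    {Q Q' : Measure Ω} [IsFiniteMeasure Q] [IsFiniteMeasure Q'] (h : Lim m U Q) (h' : Lim m U Q') :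
    Q = Q' :=
  ext_of_forall_lintegral_eq_of_IsFiniteMeasure fun f => tendsto_nhds_unique (h f) (h' f)

omit [OpensMeasurableSpace Ω] in
/-- asymptotically equal sequences have the same limit; `eps n` bounds the difference of the
masses of all measurable sets -/
theorem Lim.congr {m m' : ℕ → Measure Ω} {U : Ultrafilter ℕ}
    {Q : Measure Ω} (hm : ∀ n, IsProbabilityMeasure (m n))
    (h : Lim m U Q) {e : ℕ → ℝ≥0∞} (he : Tendsto e U (𝓝 0))
    (h1 : ∀ n, ∃ r r' : Measure Ω, m n + r = m' n + r' ∧ r univ ≤ e n ∧ r' univ ≤ e n) :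
    Lim m' U Q := by
  intro f
  obtain ⟨C, hC⟩ : ∃ C : ℝ≥0, ∀ x, f x ≤ C := ⟨nndist f 0, fun x => BoundedContinuousFunction.NNReal.upper_bound f x⟩
  have b : ∀ (ν : Measure Ω), ∫⁻ x, (f x : ℝ≥0∞) ∂ν ≤ C * ν univ := by
    intro ν
    calc ∫⁻ x, (f x : ℝ≥0∞) ∂ν ≤ ∫⁻ _, (C : ℝ≥0∞) ∂ν := by
          apply lintegral_mono
          intro x
          exact ENNReal.coe_le_coe.2 (hC x)
      _ = C * ν univ := by simp
  have key : ∀ n, ∫⁻ x, f x ∂(m' n) ≤ ∫⁻ x, f x ∂(m n) + C * e n ∧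
      ∫⁻ x, f x ∂(m n) ≤ ∫⁻ x, f x ∂(m' n) + C * e n := by
    intro n
    obtain ⟨r, r', h2, h3, h4⟩ := h1 n
    have h5 : ∫⁻ x, f x ∂(m n) + ∫⁻ x, f x ∂r = ∫⁻ x, f x ∂(m' n) + ∫⁻ x, f x ∂r' := by
      rw [← lintegral_add_measure, ← lintegral_add_measure, h2]
    constructor
    · calc ∫⁻ x, f x ∂(m' n) ≤ ∫⁻ x, f x ∂(m' n) + ∫⁻ x, f x ∂r' := le_self_add
        _ = ∫⁻ x, f x ∂(m n) + ∫⁻ x, f x ∂r := h5.symm
        _ ≤ _ := by gcongr; exact (b r).trans (by gcongr)
    · calc ∫⁻ x, f x ∂(m n) ≤ ∫⁻ x, f x ∂(m n) + ∫⁻ x, f x ∂r := le_self_add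
        _ = ∫⁻ x, f x ∂(m' n) + ∫⁻ x, f x ∂r' := h5
        _ ≤ _ := by gcongr; exact (b r').trans (by gcongr)
  have hCe : Tendsto (fun n => (C : ℝ≥0∞) * e n) U (𝓝 0) := by
    have := ENNReal.Tendsto.const_mul he (Or.inr (ENNReal.coe_ne_top (r := C)))
    simpa using this
  have hfin : ∫⁻ x, f x ∂Q ≠ ⊤ := by
    have : ∫⁻ x, f x ∂Q ≤ C := by
      refine le_of_tendsto' (h f) fun n => ?_
      have := hm n
      simpa using b (m n)
    exact (lt_of_le_of_lt this ENNReal.coe_lt_top).ne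
  have up : Tendsto (fun n => ∫⁻ x, f x ∂(m n) + C * e n) U (𝓝 (∫⁻ x, f x ∂Q)) := by
    simpa using (h f).add hCe
  have lo : Tendsto (fun n => ∫⁻ x, f x ∂(m n) - C * e n) U (𝓝 (∫⁻ x, f x ∂Q)) := by
    have := ENNReal.Tendsto.sub (h f) hCe (Or.inl hfin)
    simpa using this
  refine tendsto_of_tendsto_of_tendsto_of_le_of_le lo up (fun n => ?_) (fun n => (key n).1)
  exact tsub_le_iff_right.2 (key n).2

/-- inequality between finite measures from bounded continuous functions -/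
theorem le_of_lintegral [HasOuterApproxClosed Ω] [BorelSpace Ω] {ν ν' : Measure Ω}
    [IsFiniteMeasure ν] [IsFiniteMeasure ν'] [ν.WeaklyRegular]
    (h : ∀ f : Ω →ᵇ ℝ≥0, ∫⁻ x, f x ∂ν ≤ ∫⁻ x, f x ∂ν') : ν ≤ ν' := by
  have hcl : ∀ F : Set Ω, IsClosed F → ν F ≤ ν' F := by
    intro F hF
    exact le_of_tendsto_of_tendsto' (HasOuterApproxClosed.tendsto_lintegral_apprSeq hF ν)
      (HasOuterApproxClosed.tendsto_lintegral_apprSeq hF ν') fun n => h _
  refine Measure.le_iff.2 fun A hA => ?_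
  rw [hA.measure_eq_iSup_isClosed_of_ne_top (measure_ne_top ν A)]
  refine iSup_le fun F => iSup_le fun hFA => iSup_le fun hF => ?_
  exact (hcl F hF).trans (measure_mono hFA)

/-- domination on an open event passes to the limit -/
theorem Lim.le_map [HasOuterApproxClosed Ω] [HasOuterApproxClosed Ω'] [BorelSpace Ω']
    {m : ℕ → Measure Ω} {U : Ultrafilter ℕ} {Q : Measure Ω} [IsFiniteMeasure Q]
    (h : Lim m U Q) {G : Set Ω} (hG : IsOpen G) {f g : Ω → Ω'} (hf : Continuous f)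
    (hfm : Measurable f) (hg : Continuous g) (hgm : Measurable g)
    [((Q.restrict G).map f).WeaklyRegular]
    (h1 : ∀ᶠ n in (U : Filter ℕ), ((m n).restrict G).map f ≤ (m n).map g) :
    (Q.restrict G).map f ≤ Q.map g := by
  have : IsFiniteMeasure ((Q.restrict G).map f) := Measure.isFiniteMeasure_map _ _
  have : IsFiniteMeasure (Q.map g) := Measure.isFiniteMeasure_map _ _
  apply le_of_lintegral
  intro φ
  have hφ : Measurable fun x => (φ x : ℝ≥0∞) := φ.measurable_coe_ennreal_comp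
  rw [lintegral_map hφ hfm, lintegral_map hφ hgm]
  have hGc : IsClosed Gᶜ := hG.isClosed_compl
  let χ : ℕ → Ω →ᵇ ℝ≥0 := fun k => 1 - hGc.apprSeq k
  have hχ : ∀ k x, χ k x = 1 - hGc.apprSeq k x := fun k x => rfl
  have hχ0 : ∀ k x, x ∉ G → χ k x = 0 := by
    intro k x hx
    rw [hχ, HasOuterApproxClosed.apprSeq_apply_eq_one hGc k hx]
    simp
  have hχ1 : ∀ k x, χ k x ≤ 1 := by
    intro k x
    rw [hχ]
    exact tsub_le_self
  have hlim : ∀ x, x ∈ G → Tendsto (fun k => χ k x) atTop (𝓝 1) := by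
    intro x hx
    have h2 := (tendsto_pi_nhds.1 (HasOuterApproxClosed.tendsto_apprSeq hGc)) x
    have h3 : Gᶜ.indicator (fun _ => (1 : ℝ≥0)) x = 0 := by simp [hx]
    rw [h3] at h2
    have h4 : Tendsto (fun k => (1 : ℝ≥0) - hGc.apprSeq k x) atTop (𝓝 (1 - 0)) :=
      tendsto_const_nhds.sub h2
    rw [tsub_zero] at h4
    exact h4
  -- the bound for each k
  have hk : ∀ k, ∫⁻ x, ((χ k x * φ (f x) : ℝ≥0) : ℝ≥0∞) ∂Q ≤ ∫⁻ x, φ (g x) ∂Q := by
    intro k
    have t1 := h (χ k * φ.compContinuous ⟨f, hf⟩)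
    have t2 := h (φ.compContinuous ⟨g, hg⟩)
    refine le_of_tendsto_of_tendsto t1 t2 ?_
    filter_upwards [h1] with n hn
    calc ∫⁻ x, ((χ k * φ.compContinuous ⟨f, hf⟩) x : ℝ≥0∞) ∂(m n)
        ≤ ∫⁻ x in G, φ (f x) ∂(m n) := by
          rw [← lintegral_indicator hG.measurableSet]
          apply lintegral_mono
          intro x
          by_cases hx : x ∈ G
          · simp only [hx, indicator_of_mem]
            have : (χ k * φ.compContinuous ⟨f, hf⟩) x = χ k x * φ (f x) := rfl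
            rw [this]
            have h5 : χ k x * φ (f x) ≤ 1 * φ (f x) := by
              gcongr
              exact hχ1 k x
            rw [one_mul] at h5
            exact_mod_cast h5
          · have : (χ k * φ.compContinuous ⟨f, hf⟩) x = χ k x * φ (f x) := rfl
            simp only [this, hχ0 k x hx]
            simp
      _ = ∫⁻ y, φ y ∂(((m n).restrict G).map f) := (lintegral_map hφ hfm).symm
      _ ≤ ∫⁻ y, φ y ∂((m n).map g) := lintegral_mono' hn le_rfl
      _ = ∫⁻ x, φ (g x) ∂(m n) := lintegral_map hφ hgm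
  -- Fatou in k
  calc ∫⁻ x in G, φ (f x) ∂Q
      = ∫⁻ x in G, liminf (fun k => ((χ k x * φ (f x) : ℝ≥0) : ℝ≥0∞)) atTop ∂Q := by
        apply setLIntegral_congr_fun hG.measurableSet
        intro x hx
        have h6 : Tendsto (fun k => ((χ k x * φ (f x) : ℝ≥0) : ℝ≥0∞)) atTop
            (𝓝 ((1 * φ (f x) : ℝ≥0) : ℝ≥0∞)) :=
          ENNReal.tendsto_coe.2 ((hlim x hx).mul tendsto_const_nhds)
        rw [one_mul] at h6
        exact h6.liminf_eq.symm
    _ ≤ liminf (fun k => ∫⁻ x in G, ((χ k x * φ (f x) : ℝ≥0) : ℝ≥0∞) ∂Q) atTop := by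
        apply lintegral_liminf_le
        intro k
        apply Measurable.coe_nnreal_ennreal
        exact (χ k).continuous.measurable.mul (φ.continuous.measurable.comp hfm)
    _ ≤ ∫⁻ x, φ (g x) ∂Q := by
        refine liminf_le_of_le (by isBoundedDefault) fun b hb => ?_
        obtain ⟨k, hk2⟩ := hb.exists
        exact hk2.trans ((setLIntegral_le_lintegral _ _).trans (hk k))

omit [OpensMeasurableSpace Ω] in
/-- equality of continuous images passes to the limit -/
theorem Lim.eq_map [HasOuterApproxClosed Ω] [HasOuterApproxClosed Ω'] [BorelSpace Ω']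
    {m : ℕ → Measure Ω} {U : Ultrafilter ℕ} {Q : Measure Ω} [IsFiniteMeasure Q]
    (h : Lim m U Q) {f g : Ω → Ω'} (hf : Continuous f)
    (hfm : Measurable f) (hg : Continuous g) (hgm : Measurable g)
    (h1 : ∀ᶠ n in (U : Filter ℕ), (m n).map f = (m n).map g) :
    Q.map f = Q.map g := by
  have : IsFiniteMeasure (Q.map f) := Measure.isFiniteMeasure_map _ _
  have : IsFiniteMeasure (Q.map g) := Measure.isFiniteMeasure_map _ _
  refine ext_of_forall_lintegral_eq_of_IsFiniteMeasure fun φ => ?_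
  refine tendsto_nhds_unique_of_eventuallyEq (h.map hf hfm φ) (h.map hg hgm φ) ?_
  filter_upwards [h1] with n hn
  rw [hn]

end Gen

section Tight

variable {I : Type*} [Countable I] {X : I → Type*} [∀ i, TopologicalSpace (X i)]
  [∀ i, MeasurableSpace (X i)] [∀ i, OpensMeasurableSpace (X i)] [∀ i, T2Space (X i)]

/-- tightness in a countable product from tightness of the marginals -/
theorem tight_pi {S : Set (Measure (∀ i, X i))}
    (ht : ∀ i, IsTightMeasureSet ((fun ν : Measure (∀ i, X i) => ν.map (fun x => x i)) '' S)) :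
    IsTightMeasureSet S := by
  rw [isTightMeasureSet_iff_exists_isCompact_measure_compl_le]
  intro ε hε
  obtain ⟨δ, hδ1, hδ2⟩ := ENNReal.exists_pos_sum_of_countable' hε.ne' I
  have := fun i => (isTightMeasureSet_iff_exists_isCompact_measure_compl_le.1 (ht i)) (δ i) (hδ1 i)
  choose K hK1 hK2 using this
  refine ⟨univ.pi K, isCompact_univ_pi hK1, fun ν hν => ?_⟩
  have hsub : (univ.pi K)ᶜ ⊆ ⋃ i, (fun x : ∀ i, X i => x i) ⁻¹' (K i)ᶜ := by
    intro x hx
    simp only [mem_compl_iff, mem_univ_pi, not_forall] at hx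
    obtain ⟨i, hi⟩ := hx
    exact mem_iUnion.2 ⟨i, hi⟩
  calc ν (univ.pi K)ᶜ ≤ ∑' i, ν ((fun x : ∀ i, X i => x i) ⁻¹' (K i)ᶜ) :=
        (measure_mono hsub).trans (measure_iUnion_le _)
    _ ≤ ∑' i, δ i := by
        refine ENNReal.tsum_le_tsum fun i => ?_
        have := hK2 i _ ⟨ν, hν, rfl⟩
        simp only at this
        rwa [Measure.map_apply (measurable_pi_apply i) (hK1 i).measurableSet.compl] at this
    _ ≤ ε := hδ2.le

/-- real marginals with uniformly bounded first absolute moments are tight -/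
theorem tight_real {S : Set (Measure ℝ)} {C : ℝ≥0}
    (h : ∀ ν ∈ S, ∫⁻ x, ENNReal.ofReal |x| ∂ν ≤ C) : IsTightMeasureSet S := by
  rw [isTightMeasureSet_iff_exists_isCompact_measure_compl_le]
  intro ε hε
  rcases eq_or_ne ε ⊤ with rfl | hε2
  · exact ⟨∅, isCompact_empty, fun _ _ => le_top⟩
  have hεr : 0 < ε.toReal := ENNReal.toReal_pos hε.ne' hε2
  let R : ℝ := C / ε.toReal + 1
  have hR : 0 < R := by positivity
  refine ⟨Icc (-R) R, isCompact_Icc, fun ν hν => ?_⟩
  have hsub : (Icc (-R) R)ᶜ ⊆ {x | ENNReal.ofReal R ≤ ENNReal.ofReal |x|} := by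
    intro x hx
    simp only [mem_compl_iff, mem_Icc, not_and_or, not_le] at hx
    rw [mem_ofPred_eq]
    apply ENNReal.ofReal_le_ofReal
    rcases hx with h1 | h1
    · rw [le_abs]; right; linarith
    · rw [le_abs]; left; linarith
  refine (measure_mono hsub).trans ?_
  have h2 := mul_meas_ge_le_lintegral₀ (μ := ν) (f := fun x : ℝ => ENNReal.ofReal |x|)
    (by fun_prop) (ENNReal.ofReal R)
  have h3 := h2.trans (h ν hν)
  have h4 : (C : ℝ≥0∞) ≤ ENNReal.ofReal R * ε := by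
    rw [← ENNReal.ofReal_toReal hε2, ← ENNReal.ofReal_mul hR.le, ← ENNReal.ofReal_coe_nnreal]
    apply ENNReal.ofReal_le_ofReal
    simp only [R]
    rw [add_mul, div_mul_cancel₀ _ hεr.ne']
    linarith
  have h5 : ENNReal.ofReal R * ν {x | ENNReal.ofReal R ≤ ENNReal.ofReal |x|} ≤
      ENNReal.ofReal R * ε := h3.trans h4
  exact (ENNReal.mul_le_mul_iff_right (by simpa using hR) ENNReal.ofReal_ne_top).1 h5

end Tight

end Pool.Agent.H49WL
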