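import Pool.Agent.Helper60.TJ.C0

set_option autoImplicit false

/-! Finite volume ground states in spin form: the family `Fam n` of bond sets which are even at the
plaquettes of the box does not depend on the couplings; the energy is linear in the couplings. -/

namespace Pool.Agent.H49MS

open MeasureTheory Pool.Agent.Helper60.TJ
open scoped symmDiff

/-- the edges around the plaquettes of the box -/
noncomputable def EB (n : ℕ) : Finset Ed :=
  (box n ×ˢ (Finset.univ : Finset Dir)).image fun p => edg p.1 p.2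

/-- bond sets in the box which are even at the plaquettes of the box -/
noncomputable def Fam (n : ℕ) : Finset (Finset Ed) := by
  classical
  exact (EB n).powerset.filter fun Y => ∀ v ∈ box n, par (ind Y) v = false

theorem mem_Fam {n : ℕ} {Y : Finset Ed} :
    Y ∈ Fam n ↔ Y ⊆ EB n ∧ ∀ v ∈ box n, par (ind Y) v = false := by
  classical
  unfold Fam
  rw [Finset.mem_filter, Finset.mem_powerset]

theorem empty_mem_Fam (n : ℕ) : ∅ ∈ Fam n :=
  mem_Fam.2 ⟨Finset.empty_subset _, fun v _ => congrFun par_empty v⟩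

theorem mem_EB {n : ℕ} {v : Vx} {d : Dir} (h : v ∈ box n) : edg v d ∈ EB n := by
  unfold EB
  rw [Finset.mem_image]
  exact ⟨(v, d), Finset.mem_product.2 ⟨h, Finset.mem_univ _⟩, rfl⟩

/-- minimal energy (up to the energy of the negative couplings) -/
noncomputable def Gm (n : ℕ) (J : Ed → ℝ) : ℝ := (Fam n).inf' ⟨∅, empty_mem_Fam n⟩ (tw J)

/-- members of the family with status `b` at `e` -/
noncomputable def Fb (n : ℕ) (e : Ed) (b : Bool) : Finset (Finset Ed) :=
  (Fam n).filter fun Y => ind Y e = b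

theorem mem_Fb {n : ℕ} {e : Ed} {b : Bool} {Y : Finset Ed} :
    Y ∈ Fb n e b ↔ Y ∈ Fam n ∧ ind Y e = b := Finset.mem_filter

open Classical in
/-- minimal energy with prescribed status at `e` -/
noncomputable def mb (n : ℕ) (J : Ed → ℝ) (e : Ed) (b : Bool) : ℝ :=
  if h : (Fb n e b).Nonempty then (Fb n e b).inf' h (tw J) else Gm n J + 1

/-- the ground state bonds -/
noncomputable def Yn (n : ℕ) (J : Ed → ℝ) : Ed → Bool :=
  fun e => decide (mb n J e true < mb n J e false)

/-- the flexibility of `e`: cost of the cheapest configuration with the other status at `e` -/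
noncomputable def Fx (n : ℕ) (J : Ed → ℝ) (e : Ed) : ℝ := |mb n J e true - mb n J e false|

/-- no ties in the family -/
def Uq (n : ℕ) (J : Ed → ℝ) : Prop := ∀ Z ∈ Fam n, ∀ Z' ∈ Fam n, tw J Z = tw J Z' → Z = Z'

theorem Gm_le {n : ℕ} (J : Ed → ℝ) {Z : Finset Ed} (h : Z ∈ Fam n) : Gm n J ≤ tw J Z :=
  Finset.inf'_le _ h

theorem exists_Gm (n : ℕ) (J : Ed → ℝ) : ∃ Y ∈ Fam n, Gm n J = tw J Y :=
  Finset.exists_mem_eq_inf' _ _

theorem Gm_le_mb (n : ℕ) (J : Ed → ℝ) (e : Ed) (b : Bool) : Gm n J ≤ mb n J e b := by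
  unfold mb
  split_ifs with h
  · exact Finset.le_inf' _ _ fun Y hY => Gm_le J (mem_Fb.1 hY).1
  · linarith

theorem mb_le {n : ℕ} (J : Ed → ℝ) {e : Ed} {Z : Finset Ed} (h : Z ∈ Fam n) :
    mb n J e (ind Z e) ≤ tw J Z := by
  unfold mb
  have h1 : Z ∈ Fb n e (ind Z e) := mem_Fb.2 ⟨h, rfl⟩
  rw [dif_pos ⟨Z, h1⟩]
  exact Finset.inf'_le _ h1

theorem mb_eq_Gm {n : ℕ} {J : Ed → ℝ} {Y : Finset Ed} (hY : Y ∈ Fam n) (h : Gm n J = tw J Y)
    (e : Ed) : mb n J e (ind Y e) = Gm n J :=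
  le_antisymm ((mb_le J hY).trans h.ge) (Gm_le_mb n J e _)

/-- with no ties the minimiser is `Yn` -/
theorem Yn_eq {n : ℕ} {J : Ed → ℝ} (hu : Uq n J) {Y : Finset Ed} (hY : Y ∈ Fam n)
    (h : Gm n J = tw J Y) : Yn n J = ind Y := by
  funext e
  have h1 := mb_eq_Gm hY h e
  have h2 : Gm n J < mb n J e (!(ind Y e)) := by
    unfold mb
    split_ifs with h3
    · obtain ⟨Z, hZ, hZe⟩ := Finset.exists_mem_eq_inf' h3 (tw J)
      rw [hZe]
      obtain ⟨hZ1, hZ2⟩ := mem_Fb.1 hZ
      refine lt_of_le_of_ne (Gm_le J hZ1) fun h4 => ?_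
      have h5 := hu Y hY Z hZ1 (h.symm.trans h4)
      subst h5
      revert hZ2
      cases ind Y e <;> simp
    · linarith
  unfold Yn
  cases hb : ind Y e with
  | true =>
    rw [hb] at h1 h2
    simp only [Bool.not_true] at h2
    rw [decide_eq_true_eq, h1]
    exact h2
  | false =>
    rw [hb] at h1 h2
    simp only [Bool.not_false] at h2
    rw [decide_eq_false_iff_not, h1]
    exact not_lt.2 h2.le

/-- existence of the minimiser -/
theorem exists_Yn {n : ℕ} {J : Ed → ℝ} (hu : Uq n J) :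
    ∃ Y ∈ Fam n, Gm n J = tw J Y ∧ Yn n J = ind Y := by
  obtain ⟨Y, hY, h⟩ := exists_Gm n J
  exact ⟨Y, hY, h, Yn_eq hu hY h⟩

/-- configurations with another status at `e` cost at least the flexibility -/
theorem le_tw_of_ne {n : ℕ} {J : Ed → ℝ} (hu : Uq n J) {Z : Finset Ed} (hZ : Z ∈ Fam n) {e : Ed}
    (hne : ind Z e ≠ Yn n J e) : Gm n J + Fx n J e ≤ tw J Z := by
  obtain ⟨Y, hY, h, hYn⟩ := exists_Yn hu
  have h1 := mb_eq_Gm hY h e
  have h2 := mb_le J (e := e) hZ
  rw [hYn] at hne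
  have h3 : Gm n J ≤ mb n J e (ind Z e) := Gm_le_mb n J e _
  have h4 : Fx n J e = mb n J e (ind Z e) - Gm n J := by
    unfold Fx
    rw [← h1] at h3 ⊢
    cases hb : ind Z e <;> cases hc : ind Y e <;> rw [hb, hc] at hne <;> try exact absurd rfl hne
    · rw [hb, hc] at h3
      rw [abs_of_nonpos (by linarith)]
      linarith
    · rw [hb, hc] at h3
      rw [abs_of_nonneg (by linarith)]
  linarith

/-- energies and signed weights -/
theorem tw_symmDiff_en (J : Ed → ℝ) (Y X : Finset Ed) :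
    tw J (Y ∆ X) = tw J Y + en J (ind Y) X := by
  classical
  have h1 : Y ∆ X = (Y \ X) ∪ (X \ Y) := rfl
  have h2 : Disjoint (Y \ X) (X \ Y) := by
    rw [Finset.disjoint_left]
    intro a ha hb
    exact (Finset.mem_sdiff.1 ha).2 (Finset.mem_sdiff.1 hb).1
  unfold tw en
  rw [h1, Finset.sum_union h2]
  have h3 : ∑ e ∈ Y, J e = ∑ e ∈ Y \ X, J e + ∑ e ∈ Y ∩ X, J e := by
    rw [add_comm]; exact (Finset.sum_inter_add_sum_sdiff Y X J).symm
  have h4 : ∑ e ∈ X, J e * sg (ind Y e) = ∑ e ∈ X ∩ Y, J e * sg (ind Y e)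
      + ∑ e ∈ X \ Y, J e * sg (ind Y e) :=
    (Finset.sum_inter_add_sum_sdiff X Y _).symm
  have h5 : ∑ e ∈ X ∩ Y, J e * sg (ind Y e) = - ∑ e ∈ Y ∩ X, J e := by
    rw [← Finset.sum_neg_distrib, Finset.inter_comm]
    refine Finset.sum_congr rfl fun e he => ?_
    have : ind Y e = true := ind_eq_true.2 (Finset.mem_inter.1 he).1
    rw [this]; simp [sg]
  have h6 : ∑ e ∈ X \ Y, J e * sg (ind Y e) = ∑ e ∈ X \ Y, J e := by
    refine Finset.sum_congr rfl fun e he => ?_
    have : ind Y e = false := by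
      unfold ind
      rw [decide_eq_false_iff_not]
      exact (Finset.mem_sdiff.1 he).2
    rw [this]; simp [sg]
  rw [h3, h4, h5, h6]
  ring

theorem mul_sg_ng (J : Ed → ℝ) (e : Ed) : wt J e * sg (ng J e) = J e := by
  unfold wt ng
  by_cases h : J e < 0
  · simp [h, sg, abs_of_neg h]
  · simp [h, sg, abs_of_nonneg (not_lt.1 h)]

theorem en_signed (J : Ed → ℝ) (U : Ed → Bool) (X : Finset Ed) :
    en J U X = en (wt J) (bx U (ng J)) X := by
  unfold en bx
  refine Finset.sum_congr rfl fun e _ => ?_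
  rw [sg_xor, mul_comm (sg (U e)), ← mul_assoc, mul_sg_ng]

theorem uq_of_NT {n : ℕ} {J : Ed → ℝ} (h : NT (wt J)) : Uq n J := by
  intro Z _ Z' _ h1
  by_contra hne
  have hC : (Z ∆ Z').Nonempty := by
    rw [Finset.nonempty_iff_ne_empty]
    intro h2
    exact hne (symmDiff_eq_bot.1 h2)
  refine h _ hC (bx (ind Z) (ng J)) ?_
  have h3 := tw_symmDiff_en J Z (Z ∆ Z')
  rw [symmDiff_symmDiff_cancel_left] at h3
  rw [← en_signed]
  linarith

/-- the family is a group -/
theorem Fam.symmDiff {n : ℕ} {Y X : Finset Ed} (hY : Y ∈ Fam n) (hX : X ⊆ EB n)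
    (hp : ∀ v ∈ box n, par (ind X) v = false) : Y ∆ X ∈ Fam n := by
  obtain ⟨h1, h2⟩ := mem_Fam.1 hY
  refine mem_Fam.2 ⟨fun e he => ?_, fun v hv => ?_⟩
  · rcases Finset.mem_symmDiff.1 he with h | h
    · exact h1 h.1
    · exact hX h.1
  · rw [par_ind_symmDiff]
    unfold vx
    rw [h2 v hv, hp v hv]
    rfl

/-- the T-join of the ground state -/
noncomputable def Un (n : ℕ) (J : Ed → ℝ) : Ed → Bool := bx (Yn n J) (ng J)

theorem par_Un {n : ℕ} {J : Ed → ℝ} (hu : Uq n J) {v : Vx} (hv : v ∈ box n) :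
    par (Un n J) v = fr J v := by
  obtain ⟨Y, hY, -, h⟩ := exists_Yn hu
  unfold Un fr
  rw [par_bx, h, (mem_Fam.1 hY).2 v hv]
  simp

theorem en_Un_nonneg {n : ℕ} {J : Ed → ℝ} (hu : Uq n J) {C : Finset Ed} (hC : C ⊆ EB n)
    (hp : ∀ v ∈ box n, par (ind C) v = false) : 0 ≤ en (wt J) (Un n J) C := by
  obtain ⟨Y, hY, h1, h⟩ := exists_Yn hu
  unfold Un
  rw [h, ← en_signed]
  have h2 := Gm_le J (Fam.symmDiff hY hC hp)
  rw [tw_symmDiff_en, h1] at h2
  linarith

/-- the flexibility is a lower bound for the energy of every even set through `e` -/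
theorem Fx_le_en {n : ℕ} {J : Ed → ℝ} (hu : Uq n J) {C : Finset Ed} (hC : C ⊆ EB n)
    (hp : ∀ v ∈ box n, par (ind C) v = false) {e : Ed} (he : e ∈ C) :
    Fx n J e ≤ en (wt J) (Un n J) C := by
  obtain ⟨Y, hY, h1, h⟩ := exists_Yn hu
  have h3 : ind (Y ∆ C) e ≠ Yn n J e := by
    rw [h, ind_symmDiff]
    unfold bx
    rw [ind_eq_true.2 he]
    cases ind Y e <;> simp
  have h2 := le_tw_of_ne hu (Fam.symmDiff hY hC hp) h3
  unfold Un
  rw [h, ← en_signed]
  rw [tw_symmDiff_en, h1] at h2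
  linarith

theorem Fx_nonneg (n : ℕ) (J : Ed → ℝ) (e : Ed) : 0 ≤ Fx n J e := abs_nonneg _

/-- change of one coupling -/
theorem tw_upd (J : Ed → ℝ) (e : Ed) (x : ℝ) (Z : Finset Ed) :
    tw (upd J e x) Z = tw J Z + if ind Z e = true then x - J e else 0 := by
  classical
  unfold tw upd
  by_cases h : e ∈ Z
  · rw [if_pos (ind_eq_true.2 h), ← Finset.add_sum_erase Z _ h, ← Finset.add_sum_erase Z J h,
      Function.update_self]
    have : ∑ f ∈ Z.erase e, Function.update J e x f = ∑ f ∈ Z.erase e, J f :=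
      Finset.sum_congr rfl fun f hf => Function.update_of_ne (Finset.ne_of_mem_erase hf) _ _
    rw [this]; ring
  · rw [if_neg fun h' => h (ind_eq_true.1 h'), add_zero]
    refine Finset.sum_congr rfl fun f hf => Function.update_of_ne ?_ _ _
    rintro rfl
    exact h hf

/-- a change of `J e` which is smaller than the flexibility does not change the minimiser -/
theorem Yn_upd {n : ℕ} {J : Ed → ℝ} (hu : Uq n J) {e : Ed} {x : ℝ} (hx : |x - J e| < Fx n J e) :
    Yn n (upd J e x) = Yn n J := by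
  obtain ⟨Y, hY, h1, h⟩ := exists_Yn hu
  have key : ∀ Z ∈ Fam n, Z ≠ Y → tw (upd J e x) Y < tw (upd J e x) Z := by
    intro Z hZ hne
    have h2 : tw J Y < tw J Z :=
      lt_of_le_of_ne (h1 ▸ Gm_le J hZ) fun h3 => hne (hu Y hY Z hZ h3).symm
    rw [tw_upd, tw_upd]
    by_cases hs : ind Z e = ind Y e
    · rw [hs]; linarith
    · have h3 := le_tw_of_ne hu hZ (e := e) (by rw [h]; exact hs)
      rw [h1] at h3
      have h4 := abs_lt.1 hx
      split_ifs <;> linarith [h4.1, h4.2, Fx_nonneg n J e]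
  have hG : Gm n (upd J e x) = tw (upd J e x) Y := by
    obtain ⟨Z, hZ, hZe⟩ := exists_Gm n (upd J e x)
    by_cases hZY : Z = Y
    · rw [hZe, hZY]
    · exact absurd (Gm_le (upd J e x) hY) (not_le.2 (hZe ▸ key Z hZ hZY))
  -- the minimiser is unique, hence the statuses
  rw [h]
  funext f
  have h5 := mb_eq_Gm hY hG f
  have h6 : Gm n (upd J e x) < mb n (upd J e x) f (!(ind Y f)) := by
    unfold mb
    split_ifs with h3
    · obtain ⟨Z, hZ, hZe⟩ := Finset.exists_mem_eq_inf' h3 (tw (upd J e x))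
      rw [hZe, hG]
      obtain ⟨hZ1, hZ2⟩ := mem_Fb.1 hZ
      refine key Z hZ1 fun h7 => ?_
      subst h7
      revert hZ2
      cases ind Z f <;> simp
    · linarith
  unfold Yn
  cases hb : ind Y f with
  | true =>
    rw [hb] at h5 h6
    simp only [Bool.not_true] at h6
    rw [decide_eq_true_eq, h5]
    exact h6
  | false =>
    rw [hb] at h5 h6
    simp only [Bool.not_false] at h6
    rw [decide_eq_false_iff_not, h5]
    exact not_lt.2 h6.le

end Pool.Agent.H49MS
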