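import Pool.Agent.Helper60.TJ.E2

set_option autoImplicit false

/-! Recombination (TJ-E2) for an arbitrary stationary law `Q` of (couplings, two T-joins): only the
first marginal, stationarity and the ground state property are used. -/

namespace Pool.Agent.H49MS

open MeasureTheory Pool.Agent.Helper60.TJ Pool.Agent.Helper60.TJ.E2
open scoped symmDiff

/-- the mean of a coupling under `Q` -/
theorem lintegral_coupling {μ : Measure ℝ} [IsProbabilityMeasure μ] {k : ENNReal}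
    {Q : Measure XX} (hfst : ∀ R : Set (Ed → ℝ), Q (Prod.fst ⁻¹' R) ≤ k * PP μ R) (e : Ed) : ∫⁻ p, ENNReal.ofReal |p.1 e| ∂Q
      ≤ k * ∫⁻ x, ENNReal.ofReal |x| ∂μ := by
  have hm : Measurable (fun x : ℝ => ENNReal.ofReal |x|) :=
    ENNReal.measurable_ofReal.comp measurable_norm
  have hme : Measurable (fun J : Ed → ℝ => ENNReal.ofReal |J e|) := hm.comp (measurable_pi_apply e)
  have h1 : Q.map Prod.fst ≤ k • PP μ := by
    refine Measure.le_iff.2 fun s hs => ?_
    rw [Measure.map_apply measurable_fst hs, Measure.smul_apply, smul_eq_mul]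
    exact hfst s
  calc ∫⁻ p, ENNReal.ofReal |p.1 e| ∂Q
      = ∫⁻ J, ENNReal.ofReal |J e| ∂(Q.map Prod.fst) := (lintegral_map hme measurable_fst).symm
    _ ≤ ∫⁻ J, ENNReal.ofReal |J e| ∂(k • PP μ) := lintegral_mono' h1 le_rfl
    _ = k * ∫⁻ J, ENNReal.ofReal |J e| ∂(PP μ) := by
        rw [lintegral_smul_measure, smul_eq_mul]
    _ = k * ∫⁻ x, ENNReal.ofReal |x| ∂μ := by
        congr 1
        have h2 : (PP μ).map (fun J : Ed → ℝ => J e) = μ :=
          (measurePreserving_eval_infinitePi (fun _ : Ed => μ) e).map_eq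
        rw [← h2, lintegral_map hm (measurable_pi_apply e), h2]

theorem bad_null {μ : Measure ℝ} [IsProbabilityMeasure μ] (hint : Integrable (fun x : ℝ => x) μ)
    {k : ENNReal} (hk : k ≠ ⊤) {Q : Measure XX}
    (hfst : ∀ R : Set (Ed → ℝ), Q (Prod.fst ⁻¹' R) ≤ k * PP μ R)
    (hinv : ∀ u : Vx, MeasurePreserving (shX u) Q Q)
    (hgs : ∀ᵐ p ∂Q, p.2.1 ∈ GJ p.1 ∧ p.2.2 ∈ GJ p.1) {C : Finset Ed} (hC : IsCyc C) {ε : ℝ}
    (hε : 0 < ε) : Q (Bad C ε) = 0 := by
  classical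
  obtain ⟨r, hr⟩ := exists_box C
  set M1 : ENNReal := ∫⁻ x, ENNReal.ofReal |x| ∂μ with hM1
  have hM1f : M1 ≠ ⊤ := by
    have h := hint.2
    unfold HasFiniteIntegral at h
    have h2 : ∀ x : ℝ, ‖x‖ₑ = ENNReal.ofReal |x| := fun x => by
      rw [← Real.norm_eq_abs, ofReal_norm]
    simp only [h2] at h
    exact h.ne
  set c : ENNReal := 2 ^ (C.card + 1) * (8 * ((2 * r + 3 : ℕ) : ENNReal)) *
    (k * M1) with hc
  have hcf : c ≠ ⊤ := by
    rw [hc]
    refine ENNReal.mul_ne_top (ENNReal.mul_ne_top (by simp) ?_)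
      (ENNReal.mul_ne_top hk hM1f)
    exact ENNReal.mul_ne_top (by simp) (ENNReal.natCast_ne_top _)
  by_contra hne
  have hpos : ENNReal.ofReal ε * Q (Bad C ε) ≠ 0 :=
    mul_ne_zero (by simpa using hε) hne
  obtain ⟨n, hn⟩ := ENNReal.exists_nat_mul_gt hpos hcf
  -- the estimate for the box of radius `n`
  set L : ℕ := (2 * r + 1) * n + r + 1 with hL
  set Z : Finset Vx := (box n).image (scl (2 * r + 1)) with hZ
  have hZc : Z.card = (2 * n + 1) ^ 2 := by
    rw [hZ, Finset.card_image_of_injective _ (scl_inj (by omega)), card_box_E2]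
  have hmeas : ∀ z : Vx, MeasurableSet (Bad (shF (-z) C) ε) := fun z => measurableSet_Bad _ _
  have hQz : ∀ z : Vx, Q (Bad (shF (-z) C) ε) = Q (Bad C ε) := by
    intro z
    rw [← bad_sh]
    exact (hinv z).measure_preimage (measurableSet_Bad C ε).nullMeasurableSet
  have hpt : ∀ᵐ p ∂Q, ENNReal.ofReal ε * ∑ z ∈ Z, (Bad (shF (-z) C) ε).indicator 1 p
      ≤ 2 ^ (C.card + 1) * ∑ e ∈ circ L, ENNReal.ofReal |p.1 e| := by
    filter_upwards [hgs] with p hp
    obtain ⟨hU, hU'⟩ := hp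
    have h1 : ∑ z ∈ Z, (Bad (shF (-z) C) ε).indicator (1 : XX → ENNReal) p
        = ((Z.filter fun z => p ∈ Bad (shF (-z) C) ε).card : ENNReal) := by
      rw [Finset.card_filter]
      push_cast
      refine Finset.sum_congr rfl fun z _ => ?_
      by_cases h : p ∈ Bad (shF (-z) C) ε
      · rw [Set.indicator_of_mem h, if_pos h]; rfl
      · rw [Set.indicator_of_notMem h, if_neg h]
    rw [h1]
    have h2 := count_le (w := wt p.1) (wt_nonneg p.1) hU hU' hC hr hε.le n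
      (Z.filter fun z => p ∈ Bad (shF (-z) C) ε) (Finset.filter_subset _ _)
      (fun z hz => (Finset.mem_filter.1 hz).2)
    have h3 : ENNReal.ofReal ε * ((Z.filter fun z => p ∈ Bad (shF (-z) C) ε).card : ENNReal)
        = ENNReal.ofReal (ε * (Z.filter fun z => p ∈ Bad (shF (-z) C) ε).card) := by
      rw [ENNReal.ofReal_mul hε.le, ENNReal.ofReal_natCast]
    rw [h3]
    refine (ENNReal.ofReal_le_ofReal h2).trans (le_of_eq ?_)
    rw [ENNReal.ofReal_mul (by positivity)]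
    congr 1
    · rw [ENNReal.ofReal_pow (by norm_num)]
      congr 1
      simp
    · unfold tw wt
      rw [ENNReal.ofReal_sum_of_nonneg fun e _ => abs_nonneg _]
  have hint2 := lintegral_mono_ae hpt
  have hlhs : ∫⁻ p, ENNReal.ofReal ε * ∑ z ∈ Z, (Bad (shF (-z) C) ε).indicator 1 p ∂Q
      = ENNReal.ofReal ε * (((2 * n + 1) ^ 2 : ℕ) * Q (Bad C ε)) := by
    rw [lintegral_const_mul]
    · congr 1
      rw [lintegral_finsetSum]
      · rw [Finset.sum_congr rfl (g := fun _ => Q (Bad C ε))]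
        · rw [Finset.sum_const, hZc, nsmul_eq_mul]
        · intro z _
          rw [lintegral_indicator_one (hmeas z), hQz]
      · intro z _
        exact measurable_one.indicator (hmeas z)
    · exact Finset.measurable_sum _ fun z _ => measurable_one.indicator (hmeas z)
  have hme : ∀ e : Ed, Measurable (fun p : XX => ENNReal.ofReal |p.1 e|) := fun e =>
    (ENNReal.measurable_ofReal.comp measurable_norm).comp
      ((measurable_pi_apply e).comp measurable_fst)
  have hrhs : ∫⁻ p, 2 ^ (C.card + 1) * ∑ e ∈ circ L, ENNReal.ofReal |p.1 e| ∂Q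
      ≤ 2 ^ (C.card + 1) * (((8 * (2 * L + 1) : ℕ) : ENNReal) * (k * M1)) := by
    rw [lintegral_const_mul _ (Finset.measurable_sum _ fun e _ => hme e)]
    gcongr
    rw [lintegral_finsetSum _ fun e _ => hme e]
    calc ∑ e ∈ circ L, ∫⁻ p, ENNReal.ofReal |p.1 e| ∂Q
        ≤ ∑ e ∈ circ L, (k * M1) :=
          Finset.sum_le_sum fun e _ => lintegral_coupling hfst e
      _ = ((circ L).card : ENNReal) * (k * M1) := by
          rw [Finset.sum_const, nsmul_eq_mul]
      _ ≤ ((8 * (2 * L + 1) : ℕ) : ENNReal) * (k * M1) := by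
          gcongr
          exact card_circ_le L
  rw [hlhs] at hint2
  have h4 := hint2.trans hrhs
  have hLle : 8 * (2 * L + 1) ≤ (8 * (2 * r + 3)) * (2 * n + 1) := by
    rw [hL]; nlinarith
  have h5 : ENNReal.ofReal ε * (((2 * n + 1) ^ 2 : ℕ) * Q (Bad C ε))
      ≤ c * ((2 * n + 1 : ℕ) : ENNReal) := by
    refine h4.trans ?_
    calc 2 ^ (C.card + 1) * (((8 * (2 * L + 1) : ℕ) : ENNReal) * (k * M1))
        ≤ 2 ^ (C.card + 1) * (((8 * (2 * r + 3) * (2 * n + 1) : ℕ) : ENNReal)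
            * (k * M1)) := by
          gcongr
      _ = c * ((2 * n + 1 : ℕ) : ENNReal) := by
          rw [hc]; push_cast; ring
  have h6 : ENNReal.ofReal ε * (((2 * n + 1) ^ 2 : ℕ) * Q (Bad C ε))
      = (((2 * n + 1 : ℕ) : ENNReal) * (ENNReal.ofReal ε * Q (Bad C ε)))
        * ((2 * n + 1 : ℕ) : ENNReal) := by
    push_cast; ring
  rw [h6] at h5
  have h7 : ((2 * n + 1 : ℕ) : ENNReal) * (ENNReal.ofReal ε * Q (Bad C ε)) ≤ c := by
    refine (ENNReal.mul_le_mul_iff_left ?_ (ENNReal.natCast_ne_top (2 * n + 1))).1 h5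
    simp
  refine absurd (h7.trans_lt hn) (not_lt.2 ?_)
  gcongr
  omega

theorem recomb_ae {μ : Measure ℝ} [IsProbabilityMeasure μ] (hint : Integrable (fun x : ℝ => x) μ)
    {k : ENNReal} (hk : k ≠ ⊤) {Q : Measure XX}
    (hfst : ∀ R : Set (Ed → ℝ), Q (Prod.fst ⁻¹' R) ≤ k * PP μ R)
    (hinv : ∀ u : Vx, MeasurePreserving (shX u) Q Q)
    (hgs : ∀ᵐ p ∂Q, p.2.1 ∈ GJ p.1 ∧ p.2.2 ∈ GJ p.1) :
    ∀ᵐ p ∂Q, ∀ A : Ed → Bool, Sat (wl p) A → bx p.2.1 A ∈ GJ p.1 := by
  have h1 : ∀ᵐ p ∂Q, ∀ C : Finset Ed, ∀ n : ℕ, IsCyc C → p ∉ E2.Bad C (1 / ((n : ℝ) + 1)) := by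
    rw [ae_all_iff]
    intro C
    rw [ae_all_iff]
    intro n
    by_cases hC : IsCyc C
    · have h := bad_null hint hk hfst hinv hgs hC (ε := 1 / ((n : ℝ) + 1)) (by positivity)
      have h2 : ∀ᵐ p ∂Q, p ∉ E2.Bad C (1 / ((n : ℝ) + 1)) := measure_eq_zero_iff_ae_notMem.1 h
      filter_upwards [h2] with p hp _ using hp
    · exact Filter.Eventually.of_forall fun p h => absurd h hC
  filter_upwards [h1, hgs] with p hp hnice A hA
  obtain ⟨hU, hU'⟩ := hnice
  refine ⟨fun v => ?_, fun C hC => ?_⟩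
  · rw [par_bx, hU.1 v, E2.Sat.par_false hA (par_wall hU hU') v]
    simp
  · by_contra hneg
    rw [not_le] at hneg
    obtain ⟨n, hn⟩ := exists_nat_one_div_lt (neg_pos.2 hneg)
    exact hp C n hC ⟨A, hA, by linarith⟩

end Pool.Agent.H49MS
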